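import Mathlib

set_option autoImplicit false

namespace Pool.Agent.Results.MP_cecf76_co.PowerLaw

open Finset

/-- `I` is an `ε`-intersecting index set for the sequence `A` of subsets of an `n`-element set. -/
def IsIntersecting {n m : ℕ} (ε : ℝ) (A : Fin m → Finset (Fin n)) (I : Finset (Fin m)) : Prop :=
  ∀ i ∈ I, ∀ j ∈ I, i ≠ j → ε * (n : ℝ) < ((A i ∩ A j).card : ℝ)

/-- Every sequence of `m` subsets of an `n`-set, each with more than `c n` elements, has an
`ε`-intersecting index set of size (at least) `k`. -/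
def Forces (n m : ℕ) (c ε : ℝ) (k : ℕ) : Prop :=
  ∀ A : Fin m → Finset (Fin n), (∀ i, c * (n : ℝ) < ((A i).card : ℝ)) →
    ∃ I : Finset (Fin m), IsIntersecting ε A I ∧ k ≤ I.card

/-- `f(n,m,c,ε)`, the largest `k` such that every such sequence has an `ε`-intersecting index set
of size `k`. -/
noncomputable def f (n m : ℕ) (c ε : ℝ) : ℕ := sSup {k : ℕ | Forces n m c ε k}

theorem forces_zero (n m : ℕ) (c ε : ℝ) : Forces n m c ε 0 := fun A _ =>
  ⟨∅, by intro i hi; simp at hi, by simp⟩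

theorem forces_le {n m : ℕ} {c ε : ℝ} (hn : 1 ≤ n) (hc : c < 1) {k : ℕ}
    (h : Forces n m c ε k) : k ≤ m := by
  obtain ⟨I, -, hI⟩ := h (fun _ => Finset.univ) (by
    intro i
    have : (1 : ℝ) ≤ n := by exact_mod_cast hn
    simp only [Finset.card_univ, Fintype.card_fin]
    nlinarith)
  exact hI.trans ((Finset.card_le_univ I).trans (by simp))

theorem bdd {n m : ℕ} {c ε : ℝ} (hn : 1 ≤ n) (hc : c < 1) :
    BddAbove {k : ℕ | Forces n m c ε k} := ⟨m, fun _ hk => forces_le hn hc hk⟩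

theorem f_isGreatest {n m : ℕ} {c ε : ℝ} (hn : 1 ≤ n) (hc : c < 1) :
    IsGreatest {k : ℕ | Forces n m c ε k} (f n m c ε) :=
  ⟨Nat.sSup_mem ⟨0, forces_zero n m c ε⟩ (bdd hn hc), fun _ hk => le_csSup (bdd hn hc) hk⟩

/-! ### Lower bound: dependent random choice -/

theorem drc {n m : ℕ} (hn : 1 ≤ n) (c ε : ℝ) (hc : 0 < c) (hε : 0 < ε)
    (A : Fin m → Finset (Fin n)) (hA : ∀ i, c * (n : ℝ) < ((A i).card : ℝ)) (t T : ℕ)
    (hT : (Finset.univ.image A).card ≤ T) (ht : (T : ℝ) * ε ^ t ≤ c ^ t / 2) :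
    ∃ I : Finset (Fin m), IsIntersecting ε A I ∧ (m : ℝ) * c ^ t / 2 ≤ (I.card : ℝ) := by
  classical
  have hnR : (1 : ℝ) ≤ (n : ℝ) := by exact_mod_cast hn
  have hn0 : (0 : ℝ) < (n : ℝ) := by linarith
  let pts : Finset (Fin n) → Finset (Fin t → Fin n) := fun S => Fintype.piFinset (fun _ => S)
  have hpts : ∀ S : Finset (Fin n), ((pts S).card : ℝ) = (S.card : ℝ) ^ t := by
    intro S
    simp only [pts, Fintype.card_piFinset_const]
    push_cast
    rfl
  let bad : Finset (Fin m × Finset (Fin n)) :=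
    (Finset.univ ×ˢ Finset.univ.image A).filter
      (fun p => (((A p.1 ∩ p.2).card : ℕ) : ℝ) ≤ ε * n)
  let X : (Fin t → Fin n) → Finset (Fin m) := fun s => Finset.univ.filter (fun i => s ∈ pts (A i))
  let Y : (Fin t → Fin n) → Finset (Fin m × Finset (Fin n)) :=
    fun s => bad.filter (fun p => s ∈ pts (A p.1 ∩ p.2))
  have hsumX : ∑ s : Fin t → Fin n, ((X s).card : ℝ) = ∑ i : Fin m, ((A i).card : ℝ) ^ t := by
    have : ∀ s : Fin t → Fin n, ((X s).card : ℝ) = ∑ i : Fin m, if s ∈ pts (A i) then (1 : ℝ) else 0 := by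
      intro s
      simp only [X]
      rw [Finset.card_filter]
      push_cast
      rfl
    simp_rw [this]
    rw [Finset.sum_comm]
    refine Finset.sum_congr rfl fun i _ => ?_
    rw [← hpts, ← Finset.sum_filter, Finset.sum_const, nsmul_eq_mul, mul_one]
    congr 2
    ext s
    simp
  have hsumY : ∑ s : Fin t → Fin n, ((Y s).card : ℝ) =
      ∑ p ∈ bad, ((A p.1 ∩ p.2).card : ℝ) ^ t := by
    have : ∀ s : Fin t → Fin n, ((Y s).card : ℝ) =
        ∑ p ∈ bad, if s ∈ pts (A p.1 ∩ p.2) then (1 : ℝ) else 0 := by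
      intro s
      simp only [Y]
      rw [Finset.card_filter]
      push_cast
      rfl
    simp_rw [this]
    rw [Finset.sum_comm]
    refine Finset.sum_congr rfl fun p _ => ?_
    rw [← hpts, ← Finset.sum_filter, Finset.sum_const, nsmul_eq_mul, mul_one]
    congr 2
    ext s
    simp
  have hX : (m : ℝ) * (c * n) ^ t ≤ ∑ s : Fin t → Fin n, ((X s).card : ℝ) := by
    rw [hsumX]
    calc (m : ℝ) * (c * n) ^ t = ∑ _i : Fin m, (c * (n : ℝ)) ^ t := by simp
      _ ≤ _ := Finset.sum_le_sum fun i _ => pow_le_pow_left₀ (by positivity) (hA i).le t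
  have hY : ∑ s : Fin t → Fin n, ((Y s).card : ℝ) ≤ (m : ℝ) * T * (ε * n) ^ t := by
    rw [hsumY]
    calc ∑ p ∈ bad, ((A p.1 ∩ p.2).card : ℝ) ^ t ≤ ∑ _p ∈ bad, (ε * (n : ℝ)) ^ t := by
          refine Finset.sum_le_sum fun p hp => pow_le_pow_left₀ (by positivity) ?_ t
          exact (Finset.mem_filter.1 hp).2
      _ = (bad.card : ℝ) * (ε * (n : ℝ)) ^ t := by simp
      _ ≤ _ := by
          refine mul_le_mul_of_nonneg_right ?_ (by positivity)
          have : bad.card ≤ m * T := by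
            calc bad.card ≤ (Finset.univ ×ˢ Finset.univ.image A :
                  Finset (Fin m × Finset (Fin n))).card := Finset.card_filter_le _ _
              _ = m * (Finset.univ.image A).card := by
                  rw [Finset.card_product, Finset.card_univ, Fintype.card_fin]
              _ ≤ m * T := Nat.mul_le_mul_left _ hT
          exact_mod_cast this
  obtain ⟨s, -, hs⟩ : ∃ s ∈ (Finset.univ : Finset (Fin t → Fin n)),
      (m : ℝ) * c ^ t / 2 ≤ ((X s).card : ℝ) - ((Y s).card : ℝ) := by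
    refine Finset.exists_le_of_sum_le ?_ ?_
    · have : Nonempty (Fin n) := ⟨⟨0, by omega⟩⟩
      exact Finset.univ_nonempty
    · rw [Finset.sum_sub_distrib, Finset.sum_const, Finset.card_univ, Fintype.card_fun,
        Fintype.card_fin, Fintype.card_fin, nsmul_eq_mul]
      push_cast
      have hnr : (0 : ℝ) < (n : ℝ) ^ t := by positivity
      have e1 : (m : ℝ) * (c * n) ^ t = (n : ℝ) ^ t * (m * c ^ t) := by rw [mul_pow]; ring
      have e2 : (m : ℝ) * T * (ε * n) ^ t = (n : ℝ) ^ t * (m * (T * ε ^ t)) := by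
        rw [mul_pow]; ring
      have e3 : (n : ℝ) ^ t * ((m : ℝ) * c ^ t / 2) ≤
          (n : ℝ) ^ t * (m * c ^ t) - (n : ℝ) ^ t * (m * (T * ε ^ t)) := by
        rw [← mul_sub]
        refine mul_le_mul_of_nonneg_left ?_ hnr.le
        have : (m : ℝ) * (T * ε ^ t) ≤ m * (c ^ t / 2) :=
          mul_le_mul_of_nonneg_left ht (by positivity)
        linarith
      linarith
  refine ⟨X s \ (Y s).image Prod.fst, ?_, ?_⟩
  · intro i hi j hj hij
    by_contra hno
    push Not at hno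
    rw [Finset.mem_sdiff] at hi hj
    apply hi.2
    rw [Finset.mem_image]
    refine ⟨(i, A j), ?_, rfl⟩
    have hi1 := (Finset.mem_filter.1 hi.1).2
    have hj1 := (Finset.mem_filter.1 hj.1).2
    refine Finset.mem_filter.2 ⟨Finset.mem_filter.2 ⟨?_, hno⟩, ?_⟩
    · exact Finset.mem_product.2 ⟨Finset.mem_univ _,
        Finset.mem_image_of_mem _ (Finset.mem_univ _)⟩
    · simp only [pts, Fintype.mem_piFinset, Finset.mem_inter] at hi1 hj1 ⊢
      exact fun l => ⟨hi1 l, hj1 l⟩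
  · have hc1 : (X s).card ≤ (X s \ (Y s).image Prod.fst).card + (Y s).card := by
      have h := Finset.le_card_sdiff ((Y s).image Prod.fst) (X s)
      have h' : ((Y s).image Prod.fst).card ≤ (Y s).card := Finset.card_image_le
      omega
    have : ((X s).card : ℝ) ≤ ((X s \ (Y s).image Prod.fst).card : ℝ) + ((Y s).card : ℝ) := by
      exact_mod_cast hc1
    linarith

theorem lower {n m : ℕ} (hn : 1 ≤ n) (hm : 1 ≤ m) (c ε : ℝ) (hc : 0 < c) (hc1 : c < 1)
    (hε : 0 < ε) (hεc : ε < c) :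
    c / 2 * m * (2 * min (m : ℝ) (2 ^ n)) ^ (-(Real.log (1 / c) / Real.log (c / ε))) ≤
      (f n m c ε : ℝ) := by
  set T : ℕ := min m (2 ^ n) with hTdef
  have hT1 : 1 ≤ T := le_min hm Nat.one_le_two_pow
  have hTR : min (m : ℝ) (2 ^ n) = (T : ℝ) := by
    rw [hTdef]; push_cast; rfl
  rw [hTR]
  have hTR1 : (1 : ℝ) ≤ T := by exact_mod_cast hT1
  have hceε : 1 < c / ε := by rw [one_lt_div hε]; exact hεc
  have hL : 0 < Real.log (c / ε) := Real.log_pos hceε
  have hLc : 0 < Real.log (1 / c) := Real.log_pos (by rw [one_lt_div hc]; exact hc1)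
  set t : ℕ := ⌈Real.log (2 * T) / Real.log (c / ε)⌉₊ with ht
  have h2T : 0 ≤ Real.log (2 * T) := Real.log_nonneg (by linarith)
  have ht1 : Real.log (2 * T) / Real.log (c / ε) ≤ t := Nat.le_ceil _
  have ht2 : (t : ℝ) < Real.log (2 * T) / Real.log (c / ε) + 1 :=
    Nat.ceil_lt_add_one (by positivity)
  have hkey : (T : ℝ) * ε ^ t ≤ c ^ t / 2 := by
    have h1 : (2 * T : ℝ) ≤ (c / ε) ^ t := by
      rw [div_le_iff₀ hL] at ht1
      rw [← Real.log_le_log_iff (by positivity) (by positivity), Real.log_pow]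
      exact ht1
    rw [div_pow, le_div_iff₀ (by positivity)] at h1
    linarith
  have hct : c * (2 * (T : ℝ)) ^ (-(Real.log (1 / c) / Real.log (c / ε))) ≤ c ^ t := by
    rw [← Real.log_le_log_iff (by positivity) (by positivity), Real.log_pow,
      Real.log_mul (by positivity) (by positivity), Real.log_rpow (by positivity),
      Real.log_div one_ne_zero hc.ne', Real.log_one, zero_sub]
    have hlc : Real.log c < 0 := Real.log_neg hc hc1
    have e : Real.log c + -(-Real.log c / Real.log (c / ε)) * Real.log (2 * T) =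
        (Real.log (2 * T) / Real.log (c / ε) + 1) * Real.log c := by
      field_simp
      ring
    rw [e]
    exact mul_le_mul_of_nonpos_right ht2.le hlc.le
  have hforce : Forces n m c ε ⌈(m : ℝ) * c ^ t / 2⌉₊ := by
    intro A hA
    obtain ⟨I, hI, hI2⟩ := drc hn c ε hc hε A hA t T (by
      refine le_min ?_ ?_
      · exact Finset.card_image_le.trans (by simp)
      · exact (Finset.card_le_univ _).trans (by simp)) hkey
    exact ⟨I, hI, Nat.ceil_le.2 hI2⟩
  have h1 : ⌈(m : ℝ) * c ^ t / 2⌉₊ ≤ f n m c ε := le_csSup (bdd hn hc1) hforce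
  calc c / 2 * m * (2 * (T : ℝ)) ^ (-(Real.log (1 / c) / Real.log (c / ε)))
      = (m : ℝ) / 2 * (c * (2 * (T : ℝ)) ^ (-(Real.log (1 / c) / Real.log (c / ε)))) := by ring
    _ ≤ (m : ℝ) / 2 * c ^ t := mul_le_mul_of_nonneg_left hct (by positivity)
    _ = (m : ℝ) * c ^ t / 2 := by ring
    _ ≤ (⌈(m : ℝ) * c ^ t / 2⌉₊ : ℝ) := Nat.le_ceil _
    _ ≤ (f n m c ε : ℝ) := by exact_mod_cast h1

/-! ### Upper bound: cross-intersecting families -/

theorem cross {α : Type} [DecidableEq α] (q : ℝ) (hq : 1 ≤ q) (s : Finset α) :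
    ∀ (k : ℕ) (𝒜 ℬ : Finset (Finset α)), 𝒜 ⊆ s.powerset → ℬ ⊆ s.powerset →
      (∀ a ∈ 𝒜, ∀ b ∈ ℬ, k ≤ (a ∩ b).card) →
      (𝒜.card : ℝ) * ℬ.card * q ^ k ≤ (2 + q + 1 / q) ^ s.card := by
  have hq0 : 0 < q := by linarith
  induction s using Finset.induction_on with
  | empty =>
    intro k 𝒜 ℬ hA hB h
    rw [Finset.card_empty, pow_zero]
    rcases 𝒜.eq_empty_or_nonempty with rfl | ⟨a, ha⟩
    · simp
    rcases ℬ.eq_empty_or_nonempty with rfl | ⟨b, hb⟩
    · simp
    have ha' : a = ∅ := by simpa using hA ha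
    have hb' : b = ∅ := by simpa using hB hb
    have hk : k = 0 := by
      have := h a ha b hb
      rw [ha'] at this
      simpa using this
    subst hk
    have h1 : 𝒜.card ≤ 1 := (Finset.card_le_card hA).trans (by simp)
    have h2 : ℬ.card ≤ 1 := (Finset.card_le_card hB).trans (by simp)
    have h1' : (𝒜.card : ℝ) ≤ 1 := by exact_mod_cast h1
    have h2' : (ℬ.card : ℝ) ≤ 1 := by exact_mod_cast h2
    rw [pow_zero, mul_one]
    exact mul_le_one₀ h1' (by positivity) h2'
  | insert x s hx ih =>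
    intro k 𝒜 ℬ hA hB h
    rw [Finset.card_insert_of_notMem hx, pow_succ]
    set K : ℝ := (2 + q + 1 / q) ^ s.card with hK
    have hKpos : 0 < K := by positivity
    have hsub : ∀ 𝒞 : Finset (Finset α), 𝒞 ⊆ (insert x s).powerset →
        𝒞.nonMemberSubfamily x ⊆ s.powerset ∧ 𝒞.memberSubfamily x ⊆ s.powerset := by
      intro 𝒞 hC
      constructor
      · intro c hc
        rw [Finset.mem_nonMemberSubfamily] at hc
        have := Finset.mem_powerset.1 (hC hc.1)
        rw [Finset.mem_powerset]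
        exact (Finset.subset_insert_iff_of_notMem hc.2).1 this
      · intro c hc
        rw [Finset.mem_memberSubfamily] at hc
        have := Finset.mem_powerset.1 (hC hc.1)
        rw [Finset.mem_powerset]
        intro y hy
        have hy2 := this (Finset.mem_insert_of_mem hy)
        rcases Finset.mem_insert.1 hy2 with rfl | h3
        · exact absurd hy hc.2
        · exact h3
    obtain ⟨hA0, hA1⟩ := hsub 𝒜 hA
    obtain ⟨hB0, hB1⟩ := hsub ℬ hB
    have cA := Finset.card_memberSubfamily_add_card_nonMemberSubfamily x 𝒜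
    have cB := Finset.card_memberSubfamily_add_card_nonMemberSubfamily x ℬ
    rw [← cA, ← cB]
    push_cast
    set a1 : ℝ := ((𝒜.memberSubfamily x).card : ℝ)
    set a0 : ℝ := ((𝒜.nonMemberSubfamily x).card : ℝ)
    set b1 : ℝ := ((ℬ.memberSubfamily x).card : ℝ)
    set b0 : ℝ := ((ℬ.nonMemberSubfamily x).card : ℝ)
    have ha1 : 0 ≤ a1 := Nat.cast_nonneg _
    have ha0 : 0 ≤ a0 := Nat.cast_nonneg _
    have hb1 : 0 ≤ b1 := Nat.cast_nonneg _
    have hb0 : 0 ≤ b0 := Nat.cast_nonneg _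
    -- the four products
    have h00 : a0 * b0 * q ^ k ≤ K := by
      refine ih k _ _ hA0 hB0 fun a ha b hb => ?_
      rw [Finset.mem_nonMemberSubfamily] at ha hb
      exact h a ha.1 b hb.1
    have h01 : a0 * b1 * q ^ k ≤ K := by
      refine ih k _ _ hA0 hB1 fun a ha b hb => ?_
      rw [Finset.mem_nonMemberSubfamily] at ha
      rw [Finset.mem_memberSubfamily] at hb
      have := h a ha.1 _ hb.1
      rwa [Finset.inter_insert_of_notMem ha.2] at this
    have h10 : a1 * b0 * q ^ k ≤ K := by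
      refine ih k _ _ hA1 hB0 fun a ha b hb => ?_
      rw [Finset.mem_nonMemberSubfamily] at hb
      rw [Finset.mem_memberSubfamily] at ha
      have := h _ ha.1 b hb.1
      rwa [Finset.insert_inter_of_notMem hb.2] at this
    have h11 : a1 * b1 * q ^ k ≤ q * K := by
      have h11' : a1 * b1 * q ^ (k - 1) ≤ K := by
        refine ih (k - 1) _ _ hA1 hB1 fun a ha b hb => ?_
        rw [Finset.mem_memberSubfamily] at ha hb
        have := h _ ha.1 _ hb.1
        rw [← Finset.insert_inter_distrib, Finset.card_insert_of_notMem (by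
          intro hh; exact ha.2 (Finset.mem_inter.1 hh).1)] at this
        omega
      rcases Nat.eq_zero_or_pos k with rfl | hk
      · simp only [zero_le, Nat.sub_eq_zero_of_le, pow_zero, mul_one] at h11' ⊢
        nlinarith
      · obtain ⟨j, rfl⟩ : ∃ j, k = j + 1 := ⟨k - 1, by omega⟩
        rw [Nat.add_sub_cancel] at h11'
        rw [pow_succ]
        nlinarith
    set Q : ℝ := q ^ k with hQ
    have hQpos : 0 < Q := by positivity
    -- X = a1 b1 Q, Y = a0 b0 Q, X ≤ qK, Y ≤ K, X Y ≤ K²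
    have hXY : (a1 * b1 * Q) * (a0 * b0 * Q) ≤ K * K := by
      have : (a1 * b1 * Q) * (a0 * b0 * Q) = (a0 * b1 * Q) * (a1 * b0 * Q) := by ring
      rw [this]
      exact mul_le_mul h01 h10 (by positivity) hKpos.le
    have hsum : a1 * b1 * Q + a0 * b0 * Q ≤ K * (q + 1 / q) := by
      have h3 : 0 ≤ (q * K - a1 * b1 * Q) * (q * K - a0 * b0 * Q) := by
        refine mul_nonneg (by linarith) ?_
        nlinarith
      have h4 : q * K * (a1 * b1 * Q + a0 * b0 * Q) ≤ q * K * (K * (q + 1 / q)) := by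
        have e : q * K * (K * (q + 1 / q)) = q * q * (K * K) + K * K := by
          field_simp
        rw [e]
        nlinarith
      exact le_of_mul_le_mul_left h4 (by positivity)
    nlinarith

theorem cube_bound {d : ℕ} (δ : ℝ) (hδ : 0 ≤ δ) (F : Finset (Finset (Fin d)))
    (hF : ∀ a ∈ F, ∀ b ∈ F, δ * d ≤ ((a ∩ b).card : ℝ)) :
    (F.card : ℝ) ≤ 2 ^ d * Real.exp (-(δ ^ 2 * d / 2)) := by
  set q : ℝ := Real.exp (2 * δ) with hq
  have hq1 : 1 ≤ q := Real.one_le_exp (by linarith)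
  have h := cross q hq1 (Finset.univ : Finset (Fin d)) ⌈δ * d⌉₊ F F
    (by intro a _; simp) (by intro a _; simp) (fun a ha b hb => Nat.ceil_le.2 (hF a ha b hb))
  rw [Finset.card_univ, Fintype.card_fin] at h
  have hq2 : 2 + q + 1 / q ≤ 4 * Real.exp (δ ^ 2) := by
    have e1 : 1 / q = Real.exp (-(2 * δ)) := by rw [hq, Real.exp_neg, one_div]
    have e2 : 2 + q + 1 / q = 4 * Real.cosh δ ^ 2 := by
      rw [e1, hq, Real.cosh_eq]
      have e3 : Real.exp (2 * δ) = Real.exp δ * Real.exp δ := by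
        rw [← Real.exp_add]; ring_nf
      have e4 : Real.exp (-(2 * δ)) = Real.exp (-δ) * Real.exp (-δ) := by
        rw [← Real.exp_add]; ring_nf
      have e5 : Real.exp δ * Real.exp (-δ) = 1 := by
        rw [← Real.exp_add]; simp
      rw [e3, e4]
      nlinarith
    rw [e2]
    have h3 := Real.cosh_le_exp_half_sq δ
    have h4 : Real.cosh δ ^ 2 ≤ Real.exp (δ ^ 2 / 2) ^ 2 :=
      pow_le_pow_left₀ (Real.cosh_pos δ).le h3 2
    have h5 : Real.exp (δ ^ 2 / 2) ^ 2 = Real.exp (δ ^ 2) := by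
      rw [← Real.exp_nat_mul]; congr 1; push_cast; ring
    rw [h5] at h4
    linarith
  have hk : Real.exp (2 * δ * (δ * d)) ≤ q ^ ⌈δ * (d : ℝ)⌉₊ := by
    rw [hq, ← Real.exp_nat_mul]
    refine Real.exp_le_exp.2 ?_
    have := Nat.le_ceil (δ * (d : ℝ))
    nlinarith
  have h6 : (F.card : ℝ) * F.card * Real.exp (2 * δ * (δ * d)) ≤
      4 ^ d * Real.exp (δ ^ 2 * d) := by
    calc (F.card : ℝ) * F.card * Real.exp (2 * δ * (δ * d))
        ≤ (F.card : ℝ) * F.card * q ^ ⌈δ * (d : ℝ)⌉₊ :=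
          mul_le_mul_of_nonneg_left hk (by positivity)
      _ ≤ (2 + q + 1 / q) ^ d := h
      _ ≤ (4 * Real.exp (δ ^ 2)) ^ d := pow_le_pow_left₀ (by positivity) hq2 d
      _ = 4 ^ d * Real.exp (δ ^ 2 * d) := by
          rw [mul_pow, ← Real.exp_nat_mul]; congr 2; ring
  have h7 : (F.card : ℝ) ^ 2 ≤ (2 ^ d * Real.exp (-(δ ^ 2 * d / 2))) ^ 2 := by
    have e1 : (2 ^ d * Real.exp (-(δ ^ 2 * d / 2))) ^ 2 =
        4 ^ d * Real.exp (δ ^ 2 * d) * Real.exp (-(2 * δ * (δ * d))) := by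
      rw [mul_pow, ← Real.exp_nat_mul, ← pow_mul, mul_comm d 2, pow_mul, mul_assoc,
        ← Real.exp_add]
      congr 2
      · norm_num
      · push_cast; ring
    rw [e1]
    have e2 : (F.card : ℝ) ^ 2 = (F.card : ℝ) * F.card * Real.exp (2 * δ * (δ * d)) *
        Real.exp (-(2 * δ * (δ * d))) := by
      rw [mul_assoc ((F.card : ℝ) * F.card), ← Real.exp_add]
      simp [pow_two]
    rw [e2]
    exact mul_le_mul_of_nonneg_right h6 (Real.exp_pos _).le
  exact (pow_le_pow_iff_left₀ (by positivity) (by positivity) two_ne_zero).1 h7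

theorem card_upper (e : ℕ) :
    (Finset.univ.filter (fun v : Finset (Fin (2 * e + 1)) => 2 * e + 1 < 2 * v.card)).card
      = 4 ^ e := by
  have h1 : (Finset.univ.filter (fun v : Finset (Fin (2 * e + 1)) => 2 * e + 1 < 2 * v.card)).card
      = (Finset.univ.filter
          (fun v : Finset (Fin (2 * e + 1)) => ¬ 2 * e + 1 < 2 * v.card)).card := by
    refine Finset.card_bij (fun v _ => vᶜ) ?_ ?_ ?_
    · intro v hv
      have hv' := (Finset.mem_filter.1 hv).2
      refine Finset.mem_filter.2 ⟨Finset.mem_univ _, ?_⟩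
      rw [Finset.card_compl, Fintype.card_fin]
      omega
    · intro u _ v _ h
      exact compl_injective h
    · intro v hv
      have hv' := (Finset.mem_filter.1 hv).2
      refine ⟨vᶜ, Finset.mem_filter.2 ⟨Finset.mem_univ _, ?_⟩, compl_compl v⟩
      rw [Finset.card_compl, Fintype.card_fin]
      have : v.card ≤ 2 * e + 1 := (Finset.card_le_univ v).trans (by simp)
      omega
  have h2 := Finset.card_filter_add_card_filter_not (s := (Finset.univ : Finset (Finset (Fin (2 * e + 1)))))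
    (fun v : Finset (Fin (2 * e + 1)) => 2 * e + 1 < 2 * v.card)
  rw [Finset.card_univ, Fintype.card_finset, Fintype.card_fin] at h2
  have h3 : (2 : ℕ) ^ (2 * e + 1) = 2 * 4 ^ e := by
    rw [pow_succ, pow_mul]; norm_num; ring
  omega

theorem upper_aux {n m e : ℕ} {c ε : ℝ} (hc : c ≤ 1 / 2) (hε : 0 < ε) (hε1 : ε ≤ 1)
    (h1 : 4 ^ e ≤ m) (h2 : ((2 * e + 1 : ℕ) : ℝ) ≤ ε * n / 2) {k : ℕ}
    (hk : Forces n m c ε k) :
    (k : ℝ) ≤ 4 * m * Real.exp (-(ε ^ 2 / 8 * ((2 * e + 1 : ℕ) : ℝ))) := by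
  classical
  set d : ℕ := 2 * e + 1 with hd
  have hd0 : 0 < d := by omega
  have hdR : (0 : ℝ) < (d : ℝ) := by exact_mod_cast hd0
  have hdn : d ≤ n := by
    have hn : (0 : ℝ) ≤ n := Nat.cast_nonneg n
    have : (d : ℝ) ≤ n := by nlinarith
    exact_mod_cast this
  set V : Finset (Finset (Fin d)) := Finset.univ.filter (fun v => d < 2 * v.card) with hV
  have hVc : V.card = 4 ^ e := card_upper e
  have hVpos : 0 < V.card := by rw [hVc]; positivity
  let φ : Fin m → Finset (Fin d) := fun i =>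
    (V.equivFin.symm ⟨i.1 % V.card, Nat.mod_lt _ hVpos⟩ : V).1
  have hφV : ∀ i, d < 2 * (φ i).card := fun i =>
    (Finset.mem_filter.1 (V.equivFin.symm ⟨i.1 % V.card, Nat.mod_lt _ hVpos⟩ : V).2).2
  have hφinj : ∀ i j : Fin m, φ i = φ j → i.1 % V.card = j.1 % V.card := by
    intro i j h
    have h' : (V.equivFin.symm ⟨i.1 % V.card, Nat.mod_lt _ hVpos⟩ : V) =
      V.equivFin.symm ⟨j.1 % V.card, Nat.mod_lt _ hVpos⟩ := Subtype.ext h
    have := V.equivFin.symm.injective h'
    simpa using this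
  -- the ground set
  set q : ℕ := n / d with hq
  set r : ℕ := n % d with hr
  have hqr : d * q + r = n := Nat.div_add_mod n d
  have hrd : r < d := Nat.mod_lt _ hd0
  have hq1 : 1 ≤ q := by
    rw [hq, Nat.one_le_div_iff hd0]; exact hdn
  let E : Fin n ≃ (Fin d × Fin q) ⊕ Fin r := Fintype.equivOfCardEq (by simp [hqr])
  let S : Finset (Fin d) → Finset ((Fin d × Fin q) ⊕ Fin r) :=
    fun v => (v ×ˢ (Finset.univ : Finset (Fin q))).disjSum Finset.univ
  have hS : ∀ v, (S v).card = v.card * q + r := by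
    intro v
    simp [S, Finset.card_disjSum, Finset.card_product]
  have hSi : ∀ u v, S u ∩ S v = S (u ∩ v) := by
    intro u v
    ext x
    rcases x with ⟨a, b⟩ | b
    · simp [S]
    · simp [S]
  let A : Fin m → Finset (Fin n) := fun i => (S (φ i)).map E.symm.toEmbedding
  have hAc : ∀ i, (A i).card = (φ i).card * q + r := by
    intro i
    simp only [A, Finset.card_map, hS]
  have hAi : ∀ i j, (A i ∩ A j).card = (φ i ∩ φ j).card * q + r := by
    intro i j
    simp only [A]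
    rw [← Finset.map_inter, Finset.card_map, hSi, hS]
  have hnR : (n : ℝ) = d * q + r := by exact_mod_cast hqr.symm
  have hqR : (1 : ℝ) ≤ q := by exact_mod_cast hq1
  have hrR : (0 : ℝ) ≤ r := Nat.cast_nonneg r
  obtain ⟨I, hI, hkI⟩ := hk A (by
    intro i
    rw [hAc i]
    push_cast
    have h3 : (d : ℝ) + 1 ≤ 2 * (φ i).card := by exact_mod_cast hφV i
    have h4 : c * (n : ℝ) ≤ 1 / 2 * n := mul_le_mul_of_nonneg_right hc (Nat.cast_nonneg n)
    rw [hnR] at h4 ⊢
    nlinarith)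
  -- the image family
  have hF : ∀ a ∈ I.image φ, ∀ b ∈ I.image φ, ε / 2 * d ≤ ((a ∩ b).card : ℝ) := by
    intro a ha b hb
    obtain ⟨i, hi, rfl⟩ := Finset.mem_image.1 ha
    obtain ⟨j, hj, rfl⟩ := Finset.mem_image.1 hb
    by_cases hij : φ i = φ j
    · rw [hij, Finset.inter_self]
      have h3 : (d : ℝ) + 1 ≤ 2 * (φ j).card := by exact_mod_cast hφV j
      nlinarith
    · have hne : i ≠ j := fun h => hij (by rw [h])
      have h3 := hI i hi j hj hne
      rw [hAi i j] at h3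
      push_cast at h3
      have hrR' : (r : ℝ) ≤ d := by exact_mod_cast hrd.le
      -- ε n < x q + r, r ≤ d ≤ ε n / 2
      have h4 : ε * n / 2 < ((φ i ∩ φ j).card : ℝ) * q := by linarith
      have h5 : ε / 2 * d * q ≤ ε * n / 2 := by
        rw [hnR]
        nlinarith
      have h6 : ε / 2 * d * q < ((φ i ∩ φ j).card : ℝ) * q := lt_of_le_of_lt h5 h4
      exact (lt_of_mul_lt_mul_right h6 (by positivity)).le
  have hcube := cube_bound (ε / 2) (by positivity) (I.image φ) hF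
  -- the fibres
  have hfib : ∀ a ∈ I.image φ, (I.filter fun i => φ i = a).card ≤ m / V.card + 1 := by
    intro a _
    have : (I.filter fun i => φ i = a).card ≤ (Finset.range (m / V.card + 1)).card := by
      refine Finset.card_le_card_of_injOn (fun i => i.1 / V.card) ?_ ?_
      · intro i _
        rw [Finset.mem_coe, Finset.mem_range]
        have := Nat.div_le_div_right (c := V.card) i.2.le
        exact Nat.lt_succ_of_le this
      · intro i hi j hj hij
        have hi' := (Finset.mem_filter.1 (Finset.mem_coe.1 hi)).2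
        have hj' := (Finset.mem_filter.1 (Finset.mem_coe.1 hj)).2
        have h3 := hφinj i j (hi'.trans hj'.symm)
        have h4 : i.1 / V.card = j.1 / V.card := hij
        apply Fin.ext
        rw [← Nat.div_add_mod i.1 V.card, ← Nat.div_add_mod j.1 V.card, h3, h4]
    simpa using this
  have hcard := Finset.card_le_mul_card_image I (m / V.card + 1) hfib
  have hfR : ((m / V.card + 1 : ℕ) : ℝ) ≤ 2 * m / 4 ^ e := by
    have h3 : ((m / V.card : ℕ) : ℝ) ≤ (m : ℝ) / (V.card : ℝ) := Nat.cast_div_le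
    rw [hVc] at h3 ⊢
    push_cast at h3 ⊢
    have h4 : (1 : ℝ) ≤ (m : ℝ) / 4 ^ e := by
      rw [one_le_div (by positivity)]
      exact_mod_cast h1
    have h5 : 2 * (m : ℝ) / 4 ^ e = (m : ℝ) / 4 ^ e + (m : ℝ) / 4 ^ e := by ring
    linarith
  have h2d : (2 : ℝ) ^ d = 2 * 4 ^ e := by
    rw [hd, pow_succ, pow_mul]; norm_num; ring
  have hexp : -((ε / 2) ^ 2 * (d : ℝ) / 2) = -(ε ^ 2 / 8 * (d : ℝ)) := by ring
  rw [hexp, h2d] at hcube
  calc (k : ℝ) ≤ (I.card : ℝ) := by exact_mod_cast hkI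
    _ ≤ ((m / V.card + 1 : ℕ) : ℝ) * ((I.image φ).card : ℝ) := by exact_mod_cast hcard
    _ ≤ (2 * m / 4 ^ e) * (2 * 4 ^ e * Real.exp (-(ε ^ 2 / 8 * (d : ℝ)))) :=
        mul_le_mul hfR hcube (by positivity) (by positivity)
    _ = 4 * m * Real.exp (-(ε ^ 2 / 8 * (d : ℝ))) := by
        field_simp
        ring

theorem upper {n m : ℕ} (hn : 1 ≤ n) (hm : 1 ≤ m) (c ε : ℝ) (hc : c ≤ 1 / 2)
    (hε : 0 < ε) (hε1 : ε ≤ 1) :
    (f n m c ε : ℝ) ≤
      8 * m * (min (m : ℝ) (2 ^ n)) ^ (-(ε ^ 3 / (16 * Real.log 2))) := by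
  have hG := f_isGreatest (n := n) (m := m) (c := c) (ε := ε) hn (by linarith)
  have hforce : Forces n m c ε (f n m c ε) := hG.1
  have hmR : (1 : ℝ) ≤ m := by exact_mod_cast hm
  set M : ℝ := min (m : ℝ) (2 ^ n) with hM
  have hM1 : 1 ≤ M := le_min hmR (one_le_pow₀ (by norm_num))
  have hM0 : 0 < M := by linarith
  have hl2 : 0 < Real.log 2 := Real.log_pos (by norm_num)
  have hlM0 : 0 ≤ Real.log M := Real.log_nonneg hM1
  have hlMm : Real.log M ≤ Real.log m := Real.log_le_log hM0 (min_le_left _ _)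
  have hlMn : Real.log M ≤ n * Real.log 2 := by
    rw [← Real.log_pow]
    exact Real.log_le_log hM0 (min_le_right _ _)
  have hpow : M ^ (-(ε ^ 3 / (16 * Real.log 2))) =
      Real.exp (-(ε ^ 3 / (16 * Real.log 2)) * Real.log M) := by
    rw [Real.rpow_def_of_pos hM0]; ring_nf
  rw [hpow]
  by_cases hcase : ε * n / 2 < 1
  · have h1 : (f n m c ε : ℝ) ≤ m := by exact_mod_cast forces_le hn (by linarith) hforce
    have h2 : -(1 : ℝ) ≤ -(ε ^ 3 / (16 * Real.log 2)) * Real.log M := by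
      have h3 : ε ^ 3 / (16 * Real.log 2) * Real.log M ≤
          ε ^ 3 / (16 * Real.log 2) * (n * Real.log 2) :=
        mul_le_mul_of_nonneg_left hlMn (by positivity)
      have h4 : ε ^ 3 / (16 * Real.log 2) * (n * Real.log 2) = ε ^ 2 * (ε * n / 2) / 8 := by
        field_simp
        ring
      have h5 : ε ^ 2 * (ε * n / 2) / 8 ≤ 1 := by
        have : ε ^ 2 ≤ 1 := pow_le_one₀ hε.le hε1
        have h6 : 0 ≤ ε * n / 2 := by positivity
        nlinarith
      linarith
    have h3 : Real.exp (-1) ≤ Real.exp (-(ε ^ 3 / (16 * Real.log 2)) * Real.log M) :=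
      Real.exp_le_exp.2 h2
    have h4 : (1 : ℝ) / 8 ≤ Real.exp (-1) := by
      rw [Real.exp_neg, ← one_div]
      refine one_div_le_one_div_of_le (Real.exp_pos _) ?_
      have := Real.exp_one_lt_d9
      linarith
    nlinarith
  · push Not at hcase
    set e : ℕ := min (Nat.log 4 m) ⌊(ε * n / 2 - 1) / 2⌋₊ with he
    have h1 : 4 ^ e ≤ m := Nat.pow_le_of_le_log (by omega) (min_le_left _ _)
    have h2 : ((2 * e + 1 : ℕ) : ℝ) ≤ ε * n / 2 := by
      have h3 : (e : ℝ) ≤ (⌊(ε * n / 2 - 1) / 2⌋₊ : ℝ) := by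
        exact_mod_cast min_le_right _ _
      have h4 := Nat.floor_le (a := (ε * n / 2 - 1) / 2) (by linarith)
      push_cast
      linarith
    have hmain := upper_aux hc hε hε1 h1 h2 hforce
    have h3 : ε / 2 * Real.log M / Real.log 2 - 2 ≤ ((2 * e + 1 : ℕ) : ℝ) := by
      rcases min_choice (Nat.log 4 m) ⌊(ε * n / 2 - 1) / 2⌋₊ with hh | hh
      · rw [← he] at hh
        have h4 : m < 4 ^ (e + 1) := by
          rw [hh]; exact Nat.lt_pow_succ_log_self (by norm_num) m
        have h5 : Real.log m ≤ (2 * e + 2) * Real.log 2 := by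
          have h6 : (m : ℝ) ≤ 2 ^ (2 * e + 2) := by
            have : (2 : ℝ) ^ (2 * e + 2) = 4 ^ (e + 1) := by
              rw [show 2 * e + 2 = 2 * (e + 1) by ring, pow_mul]; norm_num
            rw [this]
            exact_mod_cast h4.le
          have h7 := Real.log_le_log (by linarith) h6
          rw [Real.log_pow] at h7
          push_cast at h7
          exact h7
        have h8 : ε / 2 * Real.log M / Real.log 2 ≤ 2 * e + 2 := by
          rw [div_le_iff₀ hl2]
          nlinarith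
        push_cast
        linarith
      · rw [← he] at hh
        have h4 := Nat.lt_floor_add_one ((ε * n / 2 - 1) / 2)
        rw [← hh] at h4
        have h8 : ε / 2 * Real.log M / Real.log 2 ≤ ε * n / 2 := by
          rw [div_le_iff₀ hl2]
          nlinarith
        push_cast
        linarith
    have h4 : -(ε ^ 2 / 8 * ((2 * e + 1 : ℕ) : ℝ)) ≤
        ε ^ 2 / 4 + -(ε ^ 3 / (16 * Real.log 2)) * Real.log M := by
      have h5 := mul_le_mul_of_nonneg_left h3 (show 0 ≤ ε ^ 2 / 8 by positivity)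
      have h6 : ε ^ 2 / 8 * (ε / 2 * Real.log M / Real.log 2 - 2) =
          ε ^ 3 / (16 * Real.log 2) * Real.log M - ε ^ 2 / 4 := by
        field_simp
        ring
      rw [h6] at h5
      linarith
    have h5 : Real.exp (-(ε ^ 2 / 8 * ((2 * e + 1 : ℕ) : ℝ))) ≤
        2 * Real.exp (-(ε ^ 3 / (16 * Real.log 2)) * Real.log M) := by
      refine (Real.exp_le_exp.2 h4).trans ?_
      rw [Real.exp_add]
      refine mul_le_mul_of_nonneg_right ?_ (Real.exp_pos _).le
      have h7 : ε ^ 2 / 4 ≤ 1 / 4 := by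
        have : ε ^ 2 ≤ 1 := pow_le_one₀ hε.le hε1
        linarith
      have h8 : Real.exp (ε ^ 2 / 4) ≤ Real.exp (1 / 4) := Real.exp_le_exp.2 h7
      have h9 : Real.exp (1 / 4) ^ 4 ≤ 2 ^ 4 := by
        rw [← Real.exp_nat_mul]
        have := Real.exp_one_lt_d9
        norm_num
        linarith
      have h10 : Real.exp (1 / 4) ≤ 2 :=
        (pow_le_pow_iff_left₀ (by positivity) (by norm_num) (by norm_num)).1 h9
      linarith
    have h6 := mul_le_mul_of_nonneg_left h5 (show (0 : ℝ) ≤ 4 * m by positivity)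
    linarith

theorem sqrt_bound (c : ℝ) (hc : 0 < c) (hc2 : c ≤ 1 / 2) (ε : ℝ) (hε : 0 < ε) (hεc : ε ≤ c ^ 3)
    (n : ℕ) (hn : 1 ≤ n) : c / 8 * Real.sqrt n < (f n n c ε : ℝ) := by
  have hc1 : c < 1 := by linarith
  have hεc' : ε < c := by
    have : c ^ 3 < c := by nlinarith [mul_pos hc hc]
    linarith
  have h := lower hn hn c ε hc hc1 hε hεc'
  have hnR : (1 : ℝ) ≤ n := by exact_mod_cast hn
  have hmin : min (n : ℝ) (2 ^ n) = n := by
    refine min_eq_left ?_
    exact_mod_cast (Nat.lt_two_pow_self (n := n)).le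
  rw [hmin] at h
  have hlc : 0 < Real.log (1 / c) := Real.log_pos (by rw [one_lt_div hc]; exact hc1)
  have hexp : Real.log (1 / c) / Real.log (c / ε) ≤ 1 / 2 := by
    have h1 : 2 * Real.log (1 / c) ≤ Real.log (c / ε) := by
      rw [← Real.log_rpow (by positivity)]
      refine Real.log_le_log (by positivity) ?_
      rw [Real.rpow_two, one_div, inv_pow, ← one_div, div_le_div_iff₀ (by positivity) hε]
      nlinarith
    rw [div_le_iff₀ (by linarith)]
    linarith
  have h2 : (2 * (n : ℝ)) ^ (-(1 / 2 : ℝ)) ≤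
      (2 * (n : ℝ)) ^ (-(Real.log (1 / c) / Real.log (c / ε))) :=
    Real.rpow_le_rpow_of_exponent_le (by linarith) (by linarith)
  have h3 : (n : ℝ) * (2 * (n : ℝ)) ^ (-(1 / 2 : ℝ)) = Real.sqrt n / Real.sqrt 2 := by
    rw [Real.rpow_neg (by positivity), ← Real.sqrt_eq_rpow, Real.sqrt_mul (by norm_num)]
    have h4 : (n : ℝ) = Real.sqrt n * Real.sqrt n := (Real.mul_self_sqrt (by linarith)).symm
    have h5 : 0 < Real.sqrt (n : ℝ) := Real.sqrt_pos.2 (by linarith)
    have h6 : 0 < Real.sqrt 2 := Real.sqrt_pos.2 (by norm_num)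
    field_simp
    rw [Real.sq_sqrt (by linarith)]
  have h4 : c / 2 * (Real.sqrt n / Real.sqrt 2) ≤ (f n n c ε : ℝ) := by
    calc c / 2 * (Real.sqrt n / Real.sqrt 2)
        = c / 2 * n * (2 * (n : ℝ)) ^ (-(1 / 2 : ℝ)) := by rw [← h3]; ring
      _ ≤ c / 2 * n * (2 * (n : ℝ)) ^ (-(Real.log (1 / c) / Real.log (c / ε))) :=
          mul_le_mul_of_nonneg_left h2 (by positivity)
      _ ≤ _ := h
  have h5 : 0 < Real.sqrt (n : ℝ) := Real.sqrt_pos.2 (by linarith)
  have h6 : Real.sqrt 2 < 2 := by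
    rw [Real.sqrt_lt' (by norm_num)]; norm_num
  have h7 : 0 < Real.sqrt 2 := Real.sqrt_pos.2 (by norm_num)
  have h8 : Real.sqrt n / 2 < Real.sqrt n / Real.sqrt 2 :=
    div_lt_div_of_pos_left h5 h7 h6
  have h9 : c / 2 * (Real.sqrt n / 2) < c / 2 * (Real.sqrt n / Real.sqrt 2) :=
    mul_lt_mul_of_pos_left h8 (by positivity)
  have h10 : 0 < c * Real.sqrt n := by positivity
  linarith

theorem not_linear (c : ℝ) (hc2 : c ≤ 1 / 2) (ε : ℝ) (hε : 0 < ε) (hε1 : ε ≤ 1)
    (η : ℝ) (hη : 0 < η) :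
    ∃ N : ℕ, ∀ n m : ℕ, N ≤ m → m ≤ n → (f n m c ε : ℝ) < η * m := by
  have hl2 : 0 < Real.log 2 := Real.log_pos (by norm_num)
  set b : ℝ := ε ^ 3 / (16 * Real.log 2) with hb
  have hb0 : 0 < b := by positivity
  have ht := ((tendsto_rpow_atTop hb0).comp tendsto_natCast_atTop_atTop).eventually_gt_atTop
    (8 / η)
  obtain ⟨N, hN⟩ := Filter.eventually_atTop.1 ht
  refine ⟨max N 1, fun n m hNm hmn => ?_⟩
  have hm1 : 1 ≤ m := le_trans (le_max_right _ _) hNm
  have hNm' : N ≤ m := le_trans (le_max_left _ _) hNm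
  have h := upper (hm1.trans hmn) hm1 c ε hc2 hε hε1
  have hmin : min (m : ℝ) (2 ^ n) = m := by
    refine min_eq_left ?_
    have : m ≤ 2 ^ n := hmn.trans (Nat.lt_two_pow_self (n := n)).le
    exact_mod_cast this
  rw [hmin, ← hb] at h
  have hmR : (1 : ℝ) ≤ m := by exact_mod_cast hm1
  have h2 : 8 / η < (m : ℝ) ^ b := hN m hNm'
  have h3 : (m : ℝ) ^ (-b) < η / 8 := by
    rw [Real.rpow_neg (by linarith), inv_lt_comm₀ (by positivity) (by positivity), inv_div]
    exact h2
  have h4 : 8 * (m : ℝ) * (m : ℝ) ^ (-b) < 8 * m * (η / 8) :=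
    mul_lt_mul_of_pos_left h3 (by positivity)
  linarith

/-- Main theorem. -/
theorem result :
    (∀ (n m : ℕ) (c ε : ℝ), 1 ≤ n → c < 1 →
      IsGreatest {k : ℕ | Forces n m c ε k} (f n m c ε)) ∧
    (∀ c ε : ℝ, 0 < c → c < 1 → 0 < ε → ε < c → ∀ n m : ℕ, 1 ≤ n → 1 ≤ m →
      c / 2 * m * (2 * min (m : ℝ) (2 ^ n)) ^ (-(Real.log (1 / c) / Real.log (c / ε))) ≤
        (f n m c ε : ℝ)) ∧
    (∀ c ε : ℝ, 0 < c → c ≤ 1 / 2 → 0 < ε → ε ≤ 1 → ∀ n m : ℕ, 1 ≤ n → 1 ≤ m →
      (f n m c ε : ℝ) ≤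
        8 * m * (min (m : ℝ) (2 ^ n)) ^ (-(ε ^ 3 / (16 * Real.log 2)))) ∧
    (∀ c : ℝ, 0 < c → c ≤ 1 / 2 → ∀ ε : ℝ, 0 < ε → ε ≤ c ^ 3 → ∀ n : ℕ, 1 ≤ n →
      c / 8 * Real.sqrt n < (f n n c ε : ℝ)) ∧
    (∀ c : ℝ, 0 < c → c ≤ 1 / 2 → ∀ ε : ℝ, 0 < ε → ε ≤ 1 → ∀ η : ℝ, 0 < η →
      ∃ N : ℕ, ∀ n m : ℕ, N ≤ m → m ≤ n → (f n m c ε : ℝ) < η * m) :=
  ⟨fun _ _ _ _ hn hc => f_isGreatest hn hc,
    fun c ε hc hc1 hε hεc _ _ hn hm => lower hn hm c ε hc hc1 hε hεc,
    fun c ε _ hc2 hε hε1 _ _ hn hm => upper hn hm c ε hc2 hε hε1,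
    fun c hc hc2 ε hε hεc n hn => sqrt_bound c hc hc2 ε hε hεc n hn,
    fun c _ hc2 ε hε hε1 η hη => not_linear c hc2 ε hε hε1 η hη⟩

end Pool.Agent.Results.MP_cecf76_co.PowerLaw
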